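import Pool.Agent.H462R3.VS.Fin
import Pool.Agent.H462R3.VS.Mem

/-!
# Single-vehicle scheduling on a line with release and handling times is NP-complete

The decision version of the problem on a path with positive handling times is NP-complete
(numbers are written in binary).  It remains NP-hard when the start vertex is an end of the path and
all travel times are positive and symmetric.  The reduction is from subset sum, so this is weak
NP-hardness; strong NP-hardness is not claimed.

The definitions are in `Pool.Agent.H462R3.VS.Defs` and `Pool.Agent.NPC.Defs`.
-/

namespace Pool.Agent.Results.MP_6e49ee_lc.LineVehicleNPComplete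

open Pool.Agent.NPC Pool.Agent.H462R3.VS

/-- The decision version of single-vehicle scheduling on a path with release times and positive
handling times is in `NP` and it is `NP`-hard.  Every language in `NP` even reduces to it in
polynomial time by a map which produces only instances with symmetric positive travel times and
with an end of the path as start vertex. -/
theorem result :
    InNPP LineVehicle ∧ NPHardP LineVehicle ∧
    ∀ L : Set (List Bool), InNP L → ∃ f : List Bool → Inst, PolyTime (fun x => bits (f x)) ∧
      (∀ x, (f x).Simple) ∧ ∀ x, x ∈ L ↔ LineVehicle (f x) := by
  refine ⟨H462VS.inNPP_lineVehicle, H462VS.hardPr_lineVehicle.toHardI.toNPHardP, fun L hL => ?_⟩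
  obtain ⟨f, hf, h1, h2⟩ := H462VS.hardPr_lineVehicle L hL
  exact ⟨f, PC.toPolyTime hf, h1, h2⟩

end Pool.Agent.Results.MP_6e49ee_lc.LineVehicleNPComplete
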